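import Pool.Agent.Lib.MP_e2f52c_an.Main

set_option autoImplicit false

open scoped ContDiff

namespace Pool.Agent.Results.MP_e2f52c_an.Counterexample

open Pool.Agent.Lib.MP_e2f52c_an

/-- The case `m = n = Q = 2`, `Ω` the unit disc, `γ` its horizontal diameter, `φ` smooth:
a Dir-minimizing `3/2`-valued function whose genuine boundary singularities form a set of
Hausdorff dimension larger than `m - 2 = 0`. -/
theorem result : ∃ φ : ℝ → ℂ, ContDiff ℝ ∞ φ ∧ ∃ gp gm : ℂ → Multiset ℂ,
    DirMin 1 (Metric.ball 0 1) φ gp gm ∧ 0 < dimH (genuine 1 (Metric.ball 0 1) gp gm) :=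
  main

end Pool.Agent.Results.MP_e2f52c_an.Counterexample
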